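import Mathlib

namespace Pool.Agent.Results.MP_04e67f_nt.Rises

open Finset

/-- abundancy `σ(n)/n` -/
noncomputable def h (n : ℕ) : ℝ := ((∑ d ∈ n.divisors, d : ℕ) : ℝ) / n

noncomputable def H (n : ℕ) : ℝ := ∏ p ∈ n.primeFactors, (p : ℝ) / ((p : ℝ) - 1)

noncomputable def g (n : ℕ) : ℝ := (H n - 2) * Real.sqrt n

/-- odd and non-deficient -/
def OddND (n : ℕ) : Prop := Odd n ∧ 2 * n ≤ ∑ d ∈ n.divisors, d

/-- odd non-deficient record setters for `g` -/
def B₁ : Set ℕ := {n | OddND n ∧ ∀ k < n, OddND k → g k < g n}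

/-- the elements of `B₁` in increasing order (indexed from `0`) -/
noncomputable def b (j : ℕ) : ℕ := Nat.nth (· ∈ B₁) j

noncomputable def T (n : ℕ) : ℝ := ∑ p ∈ n.primeFactors, 1 / (p : ℝ)

lemma T_le_h {n : ℕ} (hn : n ≠ 0) : T n ≤ h n := by
  have hn' : (0 : ℝ) < n := by positivity
  have e : h n = ∑ d ∈ n.divisors, 1 / (d : ℝ) := by
    rw [h, ← Nat.sum_div_divisors n (fun d => d), Nat.cast_sum, Finset.sum_div]
    refine Finset.sum_congr rfl fun d hd => ?_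
    have hd' := Nat.dvd_of_mem_divisors hd
    have hd0 : (d : ℝ) ≠ 0 := by exact_mod_cast (Nat.pos_of_mem_divisors hd).ne'
    rw [Nat.cast_div hd' hd0]; field_simp
  rw [e, T]
  refine Finset.sum_le_sum_of_subset_of_nonneg (fun p hp => ?_) (fun _ _ _ => by positivity)
  exact Nat.mem_divisors.2 ⟨Nat.dvd_of_mem_primeFactors hp, hn⟩

lemma prod_bounds (s : Finset ℕ) (hs : ∀ p ∈ s, 2 ≤ p) :
    1 + ∑ p ∈ s, 1 / (p : ℝ) ≤ ∏ p ∈ s, (p : ℝ) / ((p : ℝ) - 1) ∧
    ∏ p ∈ s, (p : ℝ) / ((p : ℝ) - 1) ≤ Real.exp (2 * ∑ p ∈ s, 1 / (p : ℝ)) := by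
  induction s using Finset.induction_on with
  | empty => simp
  | insert x s hx ih =>
    obtain ⟨i1, i2⟩ := ih fun p hp => hs p (mem_insert_of_mem hp)
    have h2 : (2 : ℝ) ≤ x := by exact_mod_cast hs x (mem_insert_self _ _)
    have hS : 0 ≤ ∑ p ∈ s, 1 / (p : ℝ) := sum_nonneg fun _ _ => by positivity
    have hx0 : (0 : ℝ) < 1 / x := by positivity
    have l1 : 1 + 1 / (x : ℝ) ≤ x / (x - 1) := by
      rw [le_div_iff₀ (by linarith)]
      have : 1 / (x : ℝ) * x = 1 := by field_simp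
      nlinarith
    have l2 : (x : ℝ) / (x - 1) ≤ 2 * (1 / x) + 1 := by
      rw [div_le_iff₀ (by linarith)]
      have : 1 / (x : ℝ) * x = 1 := by field_simp
      nlinarith
    rw [sum_insert hx, prod_insert hx]
    constructor
    · calc _ ≤ (1 + 1 / (x : ℝ)) * (1 + ∑ p ∈ s, 1 / (p : ℝ)) := by nlinarith
        _ ≤ _ := mul_le_mul l1 i1 (by linarith) (by linarith)
    · rw [mul_add, Real.exp_add]
      exact mul_le_mul (l2.trans (Real.add_one_le_exp _)) i2 (by linarith) (Real.exp_pos _).le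

lemma H_bounds (n : ℕ) : 1 + T n ≤ H n ∧ H n ≤ Real.exp (2 * T n) :=
  prod_bounds _ fun _ hp => (Nat.prime_of_mem_primeFactors hp).two_le

lemma exists_P (K : ℝ) : ∃ P, Odd P ∧ K < T P := by
  have : ∃ u : Finset Nat.Primes, K + 1 / 2 < ∑ p ∈ u, 1 / (p : ℝ) := by
    by_contra hc
    push Not at hc
    exact Nat.Primes.not_summable_one_div (summable_of_sum_le (fun _ => by positivity) hc)
  obtain ⟨u, hu⟩ := this
  set s := u.image (fun p : Nat.Primes => (p : ℕ)) with hs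
  have e : ∑ p ∈ s, 1 / (p : ℝ) = ∑ p ∈ u, 1 / (p : ℝ) :=
    sum_image fun x _ y _ hxy => Subtype.ext hxy
  have hp : ∀ p ∈ s.erase 2, p.Prime := by
    intro p hp
    obtain ⟨q, -, rfl⟩ := mem_image.1 (mem_of_mem_erase hp)
    exact q.2
  have hf := Nat.primeFactors_prod hp
  refine ⟨∏ p ∈ s.erase 2, p, ?_, ?_⟩
  · rw [← Nat.not_even_iff_odd, even_iff_two_dvd]
    intro h2
    have : 2 ∈ (∏ p ∈ s.erase 2, p).primeFactors :=
      Nat.mem_primeFactors.2 ⟨Nat.prime_two, h2, prod_ne_zero_iff.2 fun p h => (hp p h).ne_zero⟩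
    rw [hf] at this
    simp at this
  · rw [T, hf]
    by_cases h2 : 2 ∈ s
    · have := add_sum_erase s (fun p : ℕ => 1 / (p : ℝ)) h2
      push_cast at this
      linarith
    · rw [erase_eq_of_notMem h2]; linarith

lemma unbounded (C : ℝ) : ∃ n ∈ B₁, C < h n := by
  classical
  obtain ⟨P, hP, hT⟩ := exists_P (2 + Real.exp (2 * C))
  have hE := Real.exp_pos (2 * C)
  have hP0 : (0 : ℝ) < P := by exact_mod_cast hP.pos
  have hND : OddND P := by
    refine ⟨hP, ?_⟩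
    have h1 : 2 ≤ h P := by linarith [T_le_h hP.pos.ne']
    rw [h, le_div_iff₀ hP0] at h1
    exact_mod_cast h1
  have hex : ∃ n, OddND n ∧ g P ≤ g n := ⟨P, hND, le_rfl⟩
  obtain ⟨h1, h2⟩ := Nat.find_spec hex
  have h3 : Nat.find hex ≤ P := Nat.find_min' hex ⟨hND, le_rfl⟩
  have h4 : ∀ k < Nat.find hex, ¬ (OddND k ∧ g P ≤ g k) := fun k hk => Nat.find_min hex hk
  generalize Nat.find hex = n at h1 h2 h3 h4
  refine ⟨n, ⟨h1, fun k hk hk' => lt_of_lt_of_le (not_le.1 fun h => h4 k hk ⟨hk', h⟩) h2⟩, ?_⟩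
  have hn0 : (0 : ℝ) < Real.sqrt n := Real.sqrt_pos.2 (by exact_mod_cast h1.1.pos)
  have hs : Real.sqrt n ≤ Real.sqrt P := Real.sqrt_le_sqrt (by exact_mod_cast h3)
  have hHP := (H_bounds P).1
  have h5 : (H P - 2) * Real.sqrt n ≤ (H n - 2) * Real.sqrt n :=
    (mul_le_mul_of_nonneg_left hs (by linarith)).trans h2
  have h6 : H P - 2 ≤ H n - 2 := le_of_mul_le_mul_right h5 hn0
  have h7 : Real.exp (2 * C) < Real.exp (2 * T n) := by linarith [(H_bounds n).2]
  have h8 := Real.exp_lt_exp.1 h7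
  linarith [T_le_h h1.1.pos.ne']

theorem result : B₁.Infinite ∧ {j : ℕ | h (b j) < h (b (j + 1))}.Infinite := by
  have hinf : B₁.Infinite := by
    intro hfin
    obtain ⟨C, hC⟩ := (hfin.image h).bddAbove
    obtain ⟨n, hn, hlt⟩ := unbounded C
    exact absurd (hC ⟨n, hn, rfl⟩) (not_le.2 hlt)
  refine ⟨hinf, fun hfin => ?_⟩
  obtain ⟨N, hN⟩ := hfin.bddAbove
  obtain ⟨C, hC⟩ := ((Set.finite_le_nat (N + 1)).image (fun j => h (b j))).bddAbove
  have hall : ∀ j, h (b j) ≤ C := by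
    intro j
    induction j with
    | zero => exact hC ⟨0, by simp, rfl⟩
    | succ j ih =>
      by_cases hj : j ≤ N
      · exact hC ⟨j + 1, by simpa using hj, rfl⟩
      · have : ¬ h (b j) < h (b (j + 1)) := fun hlt => hj (hN hlt)
        exact (not_lt.1 this).trans ih
  obtain ⟨n, hn, hlt⟩ := unbounded C
  obtain ⟨j, hj⟩ : n ∈ Set.range (Nat.nth (· ∈ B₁)) := Nat.subset_range_nth hn
  have := hall j
  rw [b, hj] at this
  linarith

end Pool.Agent.Results.MP_04e67f_nt.Rises
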